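import Pool.Agent.X116.MLim

/-!
# Complete monotonicity of a Mittag-Leffler square sum

For `0 < α ≤ 1/2` the function
`f_α(t) = |E_{2α,1}(-t)|² + t |E_{2α,1+α}(-t)|² = |E_α(i √t)|²` is completely monotone.

With `N! [t^N] f_α = (-1)^N T_N`, `T_N = N! ∑_{k ≤ 2N} (-1)^k u_{2N-k} u_k`, `u_j = 1/Γ(1+αj)`, it is
shown that `T_N` is a limit of Stieltjes moment sequences: by Euler's product
`Γ(1+j/2)/Γ(1+αj) = lim K^((1/2-α)j) ∏_{i ≤ K} (i+1+αj)/(i+1+j/2)`, each factor being the moment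
sequence of a positive measure on `[0,1]`; and for `u_j = a^j/Γ(1+j/2)`, `v_j = b^j/Γ(1+j/2)`
`T_N = (2/π) (∫_0^a (a²-p²)^N b dp/(b²+p²) + ∫_0^b (b²-p²)^N a dp/(a²+p²))`.
-/

open Finset Filter Topology

namespace Pool.Agent.Results.MP_38d52f_an.CompletelyMonotone

open Pool.Agent.X116.MS Pool.Agent.X116.CMser

/-- The two-parameter Mittag-Leffler function on the real line. -/
noncomputable def E (a b z : ℝ) : ℝ := ∑' k : ℕ, z ^ k / Real.Gamma (a * k + b)

/-- The function `f_α`. -/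
noncomputable def f (α t : ℝ) : ℝ := |E (2 * α) 1 (-t)| ^ 2 + t * |E (2 * α) (1 + α) (-t)| ^ 2

/-- Complete monotonicity on `(0, ∞)`. -/
def CM (g : ℝ → ℝ) : Prop :=
  ContDiffOn ℝ (⊤ : ℕ∞) g (Set.Ioi 0) ∧ ∀ (n : ℕ) (t : ℝ), 0 < t → 0 ≤ (-1) ^ n * iteratedDeriv n g t

lemma split_sum (g : ℕ → ℝ) (N : ℕ) : ∑ k ∈ range (2 * N + 1), g k
    = ∑ q ∈ range (N + 1), g (2 * q) + ∑ q ∈ range N, g (2 * q + 1) := by
  induction N with
  | zero => simp
  | succ N ih =>
    have e : 2 * (N + 1) + 1 = 2 * N + 1 + 1 + 1 := by ring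
    rw [e, Finset.sum_range_succ, Finset.sum_range_succ, ih, Finset.sum_range_succ _ (N + 1),
      Finset.sum_range_succ (fun q => g (2 * q + 1)) N]
    have e2 : 2 * N + 1 + 1 = 2 * (N + 1) := by ring
    rw [e2]
    ring

lemma small_ml {α : ℝ} (hα : 0 < α) (β : ℝ) (s : ℕ)
    (e : ∀ p : ℕ, 1 / Real.Gamma (2 * α * p + β) = Ui α (2 * p + s)) (t : ℝ) :
    Summable fun p : ℕ => ‖(-t) ^ p / Real.Gamma (2 * α * p + β)‖ := by
  set q : ℝ := √(1 / (2 * (|t| + 1))) with hqd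
  have hq : 0 < q := by positivity
  have hq2 : q ^ 2 = 1 / (2 * (|t| + 1)) := Real.sq_sqrt (by positivity)
  obtain ⟨C, hC, h⟩ := small_of_gamma hα q hq
  refine Summable.of_nonneg_of_le (fun _ => norm_nonneg _) (fun p => ?_)
    ((summable_geometric_of_lt_one (r := (1 / 2 : ℝ)) (by norm_num) (by norm_num)).mul_left
      (C * q ^ s))
  rw [div_eq_mul_one_div, e, norm_mul, norm_pow, norm_neg, Real.norm_eq_abs, Real.norm_eq_abs]
  calc |t| ^ p * |Ui α (2 * p + s)| ≤ (|t| + 1) ^ p * (C * q ^ (2 * p + s)) := by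
        gcongr
        · linarith
        · exact h (2 * p + s)
    _ = C * q ^ s * (1 / 2) ^ p := by
        have : (|t| + 1) ^ p * (q ^ 2) ^ p = (1 / 2) ^ p := by
          rw [← mul_pow, hq2]
          congr 1
          field_simp
        rw [pow_add, pow_mul]
        linear_combination C * q ^ s * this

lemma f_eq {α : ℝ} (hα : 0 < α) (t : ℝ) : f α t = gk (T (Ui α) (Ui α)) 0 t := by
  have e0 : ∀ p : ℕ, 1 / Real.Gamma (2 * α * p + 1) = Ui α (2 * p + 0) := by
    intro p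
    unfold Ui
    congr 2
    push_cast
    ring
  have e1 : ∀ p : ℕ, 1 / Real.Gamma (2 * α * p + (1 + α)) = Ui α (2 * p + 1) := by
    intro p
    unfold Ui
    congr 2
    push_cast
    ring
  have s0 := small_ml hα 1 0 e0 t
  have s1 := small_ml hα (1 + α) 1 e1 t
  have A := (summable_norm_sum_mul_antidiagonal_of_summable_norm s0 s0).of_norm.hasSum
  rw [← tsum_mul_tsum_eq_tsum_sum_antidiagonal_of_summable_norm s0 s0] at A
  have B := ((summable_norm_sum_mul_antidiagonal_of_summable_norm s1 s1).of_norm.hasSum).mul_left t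
  rw [← tsum_mul_tsum_eq_tsum_sum_antidiagonal_of_summable_norm s1 s1] at B
  -- shift `B`
  set bb : ℕ → ℝ := fun N => -((-t) ^ N * ∑ q ∈ range N, Ui α (2 * (N - 1 - q) + 1) * Ui α (2 * q + 1))
    with hbb
  have hB : HasSum bb (t * ((∑' p : ℕ, (-t) ^ p / Real.Gamma (2 * α * p + (1 + α)))
      * ∑' p : ℕ, (-t) ^ p / Real.Gamma (2 * α * p + (1 + α)))) := by
    rw [← hasSum_nat_add_iff' 1]
    simp only [Finset.range_one, Finset.sum_singleton]
    have hb0 : bb 0 = 0 := by simp [hbb]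
    rw [hb0, sub_zero]
    refine B.congr_fun fun N => ?_
    rw [Finset.Nat.sum_antidiagonal_eq_sum_range_succ_mk, Finset.mul_sum]
    simp only [hbb]
    rw [Finset.mul_sum, ← Finset.sum_neg_distrib, ← Finset.sum_range_reflect]
    refine Finset.sum_congr rfl fun q hq => ?_
    have hq' : q ≤ N := Nat.lt_succ_iff.mp (Finset.mem_range.mp hq)
    have h1 := e1 q
    have h2 := e1 (N - q)
    have c1 : N + 1 - 1 - (N + 1 - 1 - q) = q := by omega
    have c2 : N + 1 - 1 - q = N - q := by omega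
    rw [c1, c2]
    rw [div_eq_mul_one_div ((-t) ^ q), div_eq_mul_one_div ((-t) ^ (N - q)), h1, h2]
    have h3 : (-t) ^ (N + 1) = (-t) * ((-t) ^ q * (-t) ^ (N - q)) := by
      rw [← pow_add, pow_succ]
      have : q + (N - q) = N := by omega
      rw [this]
      ring
    rw [h3]
    ring
  have hA : HasSum (fun N : ℕ => (-t) ^ N * ∑ q ∈ range (N + 1), Ui α (2 * (N - q)) * Ui α (2 * q))
      ((∑' p : ℕ, (-t) ^ p / Real.Gamma (2 * α * p + 1))
      * ∑' p : ℕ, (-t) ^ p / Real.Gamma (2 * α * p + 1)) := by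
    refine A.congr_fun fun N => ?_
    rw [Finset.Nat.sum_antidiagonal_eq_sum_range_succ_mk, Finset.mul_sum,
      ← Finset.sum_range_reflect]
    refine Finset.sum_congr rfl fun q hq => ?_
    have hq' : q ≤ N := Nat.lt_succ_iff.mp (Finset.mem_range.mp hq)
    have h1 := e0 q
    have h2 := e0 (N - q)
    have c1 : N - (N + 1 - 1 - q) = q := by omega
    have c2 : N + 1 - 1 - q = N - q := by omega
    rw [c1, c2]
    rw [div_eq_mul_one_div ((-t) ^ q), div_eq_mul_one_div ((-t) ^ (N - q)), h1, h2]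
    have h3 : (-t) ^ N = (-t) ^ q * (-t) ^ (N - q) := by
      rw [← pow_add]
      congr 1
      omega
    rw [h3]
    simp only [add_zero]
    ring
  have hsum := hA.add hB
  have hf : f α t = (∑' p : ℕ, (-t) ^ p / Real.Gamma (2 * α * p + 1))
      * (∑' p : ℕ, (-t) ^ p / Real.Gamma (2 * α * p + 1))
      + t * ((∑' p : ℕ, (-t) ^ p / Real.Gamma (2 * α * p + (1 + α)))
      * ∑' p : ℕ, (-t) ^ p / Real.Gamma (2 * α * p + (1 + α))) := by
    unfold f E
    rw [sq_abs, sq_abs]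
    ring
  rw [hf, ← hsum.tsum_eq]
  unfold gk
  refine tsum_congr fun N => ?_
  simp only [add_zero, hbb]
  unfold T
  rw [split_sum]
  have hN : (N.factorial : ℝ) ≠ 0 := by positivity
  have g1 : ∑ q ∈ range (N + 1), (-1) ^ (2 * q) * Ui α (2 * N - 2 * q) * Ui α (2 * q)
      = ∑ q ∈ range (N + 1), Ui α (2 * (N - q)) * Ui α (2 * q) := by
    refine Finset.sum_congr rfl fun q _ => ?_
    rw [pow_mul, Nat.mul_sub]
    norm_num
  have g2 : ∑ q ∈ range N, (-1) ^ (2 * q + 1) * Ui α (2 * N - (2 * q + 1)) * Ui α (2 * q + 1)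
      = -∑ q ∈ range N, Ui α (2 * (N - 1 - q) + 1) * Ui α (2 * q + 1) := by
    rw [← Finset.sum_neg_distrib]
    refine Finset.sum_congr rfl fun q hq => ?_
    have hq' := Finset.mem_range.mp hq
    have e : 2 * N - (2 * q + 1) = 2 * (N - 1 - q) + 1 := by omega
    rw [e, pow_succ, pow_mul]
    norm_num
  rw [g1, g2]
  field_simp

lemma bd {α : ℝ} (hα : 0 < α) : Bd (T (Ui α) (Ui α)) := by
  intro q hq k
  have hq0 : 0 < √(q / 6) := by positivity
  have hq2 : √(q / 6) ^ 2 = q / 6 := Real.sq_sqrt (by positivity)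
  obtain ⟨C, hC, h⟩ := small_of_gamma hα _ hq0
  refine ⟨(k.factorial : ℝ) * (C * C) * (6 * √(q / 6) ^ 2) ^ k, by positivity, fun n => ?_⟩
  have := T_bound hC.le hC.le hq0.le h h n k
  refine this.trans (le_of_eq ?_)
  rw [hq2]
  congr 2
  ring

/-- **Main theorem.** For every `α ∈ (0, 1/2]` the function
`f_α(t) = |E_{2α,1}(-t)|² + t |E_{2α,1+α}(-t)|²` is completely monotone on `(0, ∞)`. -/
theorem result (α : ℝ) (h0 : 0 < α) (h1 : α ≤ 1 / 2) : CM (f α) := by
  have e : f α = gk (T (Ui α) (Ui α)) 0 := funext (f_eq h0)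
  rw [e]
  refine ⟨(contDiff (bd h0)).contDiffOn, fun n t ht => ?_⟩
  rw [iter (bd h0)]
  simp only
  rw [← mul_assoc, ← mul_pow]
  norm_num
  exact S_nonneg h0 h1 n ht.le

end Pool.Agent.Results.MP_38d52f_an.CompletelyMonotone
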